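import Pool.Agent.Helper69K1.HalfTwist

set_option autoImplicit false

/-!
# A half twist on four strands of an alternating link

Let `L₀` be a link with an alternating diagram on the sphere, coloured like a checkerboard. Choose
an arc between two white regions that crosses four strands of the diagram, and insert the half twist
`Δ = σ₁ σ₃ σ₂ σ₁ σ₃ σ₂` on these four strands, where the crossings `σ₁`, `σ₃` are of the sign of the
alternating diagram, so that the two crossings `σ₂` are of the wrong sign with respect to the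
colouring. Let `L` be the resulting link. For instance, `L` is the closure of the 4-braid `Δ β`, where
`β` is any alternating 4-braid, that is, a product of `σ₁, σ₂⁻¹, σ₃`. The theorem: the fundamental
group of the double branched cover of `L` has no nontrivial homomorphism to a left-orderable group.
More generally, the crossings of the alternating part may be replaced by arbitrary positive
rational tangles.

The condition on the arc is that it is a shortest one: regard the part of the sphere where the half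
twist is inserted as a box with eight ends; then every arc outside the box from the region above the
box to the region below the box has to cross at least four strands. (For closed 4-braids this is
true.) The half twist cannot be replaced by the crossing `σ₂ σ₁ σ₃ σ₂` of two pairs of parallel
strands: the closure of `σ₂ σ₁ σ₃ σ₂ σ₂⁻²` is the unlink with two components. The link `L` is in
general not alternating: the Jones polynomial of the closure of `Δ (σ₁ σ₃ σ₂⁻¹)³` has the leading
coefficient `2`.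

The presentation. A diagram with a box is described by its white and black regions and its
crossings. The strands enter the box from the left and leave it to the right. The eight regions
at the box are, in clockwise order, `x 0` (above the box), `y 0`, `x 1`, `y 1` (to the right), `x 2`
(below), `y 2`, `x 3`, `y 3` (to the left). The group of the double branched cover of `L` is generated
by the regions (this is the Dehn presentation, restricted to the even subgroup of the orbifold
group); at a crossing whose overpass separates the regions `w₁, b₁` from `w₂, b₂`, where `w₁` and `w₂`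
are white and `b₁`, `b₂` black, there is the relation `b₂⁻¹ b₁ = w₁⁻¹ w₂`, and one white and one black
region are set equal to `1`. For a rational tangle `p / q` the elements `u = b₂⁻¹ b₁` and
`v = w₁⁻¹ w₂` commute and satisfy `u ^ q = v ^ p`; so `n / 1` stands for a row of `n` crossings between
`w₁` and `w₂`, and `1 / n` for a row of `n` crossings between `b₁` and `b₂`.

The proof. Let the group act on a complete linear order. At every point the white regions, ordered
by the images of the point, satisfy a maximum principle (`Pool.Agent.Helper69K1.HT.BNet`), which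
compares the regions to the right of the box with those to the left. The half twist maps the
latter back to the former, turned upside down and at another point of the order. This leaves no
room for a nontrivial action (`Pool.Agent.Helper69K1.HT.HS.fx`).
-/

namespace Pool.Agent.Results.MP_3d425c_gt.AlternatingHalfTwist

open Relation

/-- An alternating diagram with a box with eight ends; each crossing `c` stands for the rational
tangle `p c / q c`. -/
structure Diagram where
  /-- white regions -/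
  W : Type
  /-- black regions -/
  B : Type
  /-- crossings -/
  C : Type
  finW : Finite W
  /-- the corners of a crossing are `w₁, b₁, w₂, b₂`, in clockwise order; the overpass separates
  `w₁, b₁` from `w₂, b₂` -/
  w₁ : C → W
  b₁ : C → B
  w₂ : C → W
  b₂ : C → B
  p : C → ℕ
  q : C → ℕ
  p_pos : ∀ c, 1 ≤ p c
  q_pos : ∀ c, 1 ≤ q c
  /-- the regions at the box are `x 0, y 0, x 1, y 1, x 2, y 2, x 3, y 3`, in clockwise order -/
  x : Fin 4 → W
  y : Fin 4 → B
  /-- The corners of a white region, in the order in which they are met when its boundary is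
  followed counterclockwise. `Sum.inl (c, false)` and `Sum.inl (c, true)` are the corners `w₁` and `w₂`
  of the crossing `c`, and `Sum.inr i` is the corner `x i` of the box. -/
  star : W → List ((C × Bool) ⊕ Fin 4)

namespace Diagram

section
variable (D : Diagram)

/-- the white region at a corner -/
def at_ : (D.C × Bool) ⊕ Fin 4 → D.W
  | Sum.inl k => if k.2 then D.w₂ k.1 else D.w₁ k.1
  | Sum.inr i => D.x i

/-- the white region on the opposite side of the crossing -/
def opp (k : D.C × Bool) : D.W := if k.2 then D.w₁ k.1 else D.w₂ k.1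

/-- the black region that precedes the white corner in the clockwise order around the crossing or
the box -/
def pred : (D.C × Bool) ⊕ Fin 4 → D.B
  | Sum.inl k => if k.2 then D.b₁ k.1 else D.b₂ k.1
  | Sum.inr i => D.y (i - 1)

/-- the black region that follows the white corner in the clockwise order around the crossing or
the box -/
def succ : (D.C × Bool) ⊕ Fin 4 → D.B
  | Sum.inl k => if k.2 then D.b₂ k.1 else D.b₁ k.1
  | Sum.inr i => D.y i

/-- The corners in the list follow each other along the boundary of a white region: on its way from a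
corner to the next one the boundary is shared with one black region. The black region before the
first corner is `a`, the one after the last corner is `b`. -/
def Path : D.B → List ((D.C × Bool) ⊕ Fin 4) → D.B → Prop
  | a, [], b => a = b
  | a, k :: l, b => D.pred k = a ∧ Path (D.succ k) l b

/-- two white regions are opposite to each other at some crossing -/
def AdjW (a b : D.W) : Prop := ∃ k, D.at_ (Sum.inl k) = a ∧ D.opp k = b

/-- two black regions are opposite to each other at some crossing -/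
def AdjB (a b : D.B) : Prop := ∃ c, (D.b₁ c = a ∧ D.b₂ c = b) ∨ (D.b₂ c = a ∧ D.b₁ c = b)

/-- The conditions on the data. -/
structure Good : Prop where
  mem : ∀ v k, k ∈ D.star v ↔ D.at_ k = v
  nodup : ∀ v, (D.star v).Nodup
  /-- the boundary of a white region closes up -/
  closed : ∀ v, ∃ a, D.Path a (D.star v) a
  /-- every part of the diagram is attached to the box -/
  connW : ∀ v, ∃ i, ReflTransGen D.AdjW v (D.x i)
  connB : ∀ v, ∃ i, ReflTransGen D.AdjB v (D.y i)
  /-- every arc outside the box from `x 0` to `x 2` crosses at least four strands: `x 1` and `x 3` are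
  joined by a chain of opposite white regions different from `x 0`, `x 2` -/
  link : ReflTransGen (fun a b => D.AdjW a b ∧ b ≠ D.x 0 ∧ b ≠ D.x 2) (D.x 1) (D.x 3)
  ne02 : D.x 0 ≠ D.x 2
  ne10 : D.x 1 ≠ D.x 0
  ne12 : D.x 1 ≠ D.x 2

/-- Generators: the white and the black regions outside the box, and the three regions inside the
half twist: `s 0` and `s 2` (black) and `s 1` (white). -/
abbrev Gen : Type := D.W ⊕ D.B ⊕ Fin 3

/-- the generator of a white region -/
def w (v : D.W) : FreeGroup D.Gen := FreeGroup.of (Sum.inl v)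

/-- the generator of a black region -/
def b (v : D.B) : FreeGroup D.Gen := FreeGroup.of (Sum.inr (Sum.inl v))

/-- the generator of a region inside the half twist -/
def s (i : Fin 3) : FreeGroup D.Gen := FreeGroup.of (Sum.inr (Sum.inr i))

/-- `b₂⁻¹ b₁` at the crossing `c` -/
def u (c : D.C) : FreeGroup D.Gen := (D.b (D.b₂ c))⁻¹ * D.b (D.b₁ c)

/-- `w₁⁻¹ w₂` at the crossing `c` -/
def v (c : D.C) : FreeGroup D.Gen := (D.w (D.w₁ c))⁻¹ * D.w (D.w₂ c)

/-- The relator of a crossing of the half twist; its overpass runs from the upper left to the lower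
right. It does not depend on the colours. -/
def sigma (left upper right lower : FreeGroup D.Gen) : FreeGroup D.Gen :=
  left⁻¹ * right * (upper⁻¹ * lower)⁻¹

/-- The relators of the fundamental group of the double branched cover. The six crossings of the
half twist are `σ₁, σ₃, σ₂, σ₁, σ₃, σ₂`, from left to right. -/
def relators : Set (FreeGroup D.Gen) :=
  {r | r = D.w (D.x 0) ∨ r = D.b (D.y 0) ∨
    (∃ c, r = D.u c * D.v c * (D.u c)⁻¹ * (D.v c)⁻¹ ∨ r = D.u c ^ D.q c * (D.v c ^ D.p c)⁻¹) ∨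
    r = D.sigma (D.b (D.y 3)) (D.w (D.x 0)) (D.s 0) (D.w (D.x 3)) ∨
    r = D.sigma (D.b (D.y 2)) (D.w (D.x 3)) (D.s 2) (D.w (D.x 2)) ∨
    r = D.sigma (D.w (D.x 3)) (D.s 0) (D.s 1) (D.s 2) ∨
    r = D.sigma (D.s 0) (D.w (D.x 0)) (D.b (D.y 0)) (D.s 1) ∨
    r = D.sigma (D.s 2) (D.s 1) (D.b (D.y 1)) (D.w (D.x 2)) ∨
    r = D.sigma (D.s 1) (D.b (D.y 0)) (D.w (D.x 1)) (D.b (D.y 1))}

/-- The fundamental group of the double branched cover of the link. -/
abbrev Grp : Type := PresentedGroup D.relators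

end

end Diagram

/-- the stars of the white regions in the example -/
def exStar : Fin 6 → List ((Fin 9 × Bool) ⊕ Fin 4) :=
  ![[Sum.inr 0, Sum.inl (0, false), Sum.inl (3, false), Sum.inl (6, false)],
    [Sum.inr 1, Sum.inl (1, false), Sum.inl (2, false), Sum.inl (0, true)],
    [Sum.inr 2, Sum.inl (7, true), Sum.inl (4, true), Sum.inl (1, true)],
    [Sum.inr 3, Sum.inl (8, true)],
    [Sum.inl (2, true), Sum.inl (4, false), Sum.inl (5, false), Sum.inl (3, true)],
    [Sum.inl (5, true), Sum.inl (7, false), Sum.inl (8, false), Sum.inl (6, true)]]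

/-- Example: the closed 4-braid `(σ₁ σ₃ σ₂⁻¹)³`, opened at the box. With the half twist in the box this is a
link with determinant `135`, which is not alternating. The white regions are `x 0, x 1, x 2, x 3` and
two more, the black regions are `y 0, y 1, y 2, y 3` and four more. -/
def braidExample : Diagram where
  W := Fin 6
  B := Fin 8
  C := Fin 9
  finW := inferInstance
  w₁ := ![0, 1, 1, 0, 4, 4, 0, 5, 5]
  b₁ := ![4, 6, 4, 5, 7, 5, 3, 2, 3]
  w₂ := ![1, 2, 4, 4, 2, 5, 5, 2, 3]
  b₂ := ![0, 1, 6, 4, 6, 7, 5, 7, 2]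
  p := fun _ => 1
  q := fun _ => 1
  p_pos := fun _ => le_rfl
  q_pos := fun _ => le_rfl
  x := ![0, 1, 2, 3]
  y := ![0, 1, 2, 3]
  star := exStar

theorem braidExample_good : braidExample.Good := by
  have a4 : braidExample.AdjW (4 : Fin 6) (1 : Fin 6) := ⟨((2 : Fin 9), true), rfl, rfl⟩
  have a5 : braidExample.AdjW (5 : Fin 6) (3 : Fin 6) := ⟨((8 : Fin 9), false), rfl, rfl⟩
  have a14 : braidExample.AdjW (1 : Fin 6) (4 : Fin 6) := ⟨((2 : Fin 9), false), rfl, rfl⟩
  have a45 : braidExample.AdjW (4 : Fin 6) (5 : Fin 6) := ⟨((5 : Fin 9), false), rfl, rfl⟩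
  have c4 : braidExample.AdjB (4 : Fin 8) (0 : Fin 8) := ⟨(0 : Fin 9), Or.inl ⟨rfl, rfl⟩⟩
  have c5 : braidExample.AdjB (5 : Fin 8) (3 : Fin 8) := ⟨(6 : Fin 9), Or.inr ⟨rfl, rfl⟩⟩
  have c6 : braidExample.AdjB (6 : Fin 8) (1 : Fin 8) := ⟨(1 : Fin 9), Or.inl ⟨rfl, rfl⟩⟩
  have c7 : braidExample.AdjB (7 : Fin 8) (2 : Fin 8) := ⟨(7 : Fin 9), Or.inr ⟨rfl, rfl⟩⟩
  refine ⟨?_, ?_, ?_, ?_, ?_, ?_, ?_, ?_, ?_⟩
  · have h0 : ∀ (l : List ((Fin 9 × Bool) ⊕ Fin 4)) k, k ∈ l ↔ ∃ x ∈ l, x = k := by
      intro l k; simp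
    have h1 : ∀ (v : Fin 6) (k : Fin 9 × Bool), (∃ x ∈ exStar v, x = Sum.inl k) ↔
        (if k.2 then (![1, 2, 4, 4, 2, 5, 5, 2, 3] : Fin 9 → Fin 6) k.1 else
          (![0, 1, 1, 0, 4, 4, 0, 5, 5] : Fin 9 → Fin 6) k.1) = v := by decide
    have h2 : ∀ (v : Fin 6) (i : Fin 4), (∃ x ∈ exStar v, x = Sum.inr i) ↔
        (![0, 1, 2, 3] : Fin 4 → Fin 6) i = v := by decide
    rintro v (k | i)
    · exact (h0 _ _).trans (h1 v k)
    · exact (h0 _ _).trans (h2 v i)
  · have h1 : ∀ v : Fin 6, (exStar v).Nodup := by decide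
    exact h1
  · intro v
    have hv : ∀ v : Fin 6, ∃ a, braidExample.Path a (braidExample.star v) a := by
      intro v
      fin_cases v
      · exact ⟨(3 : Fin 8), rfl, rfl, rfl, rfl, rfl⟩
      · exact ⟨(0 : Fin 8), rfl, rfl, rfl, rfl, rfl⟩
      · exact ⟨(1 : Fin 8), rfl, rfl, rfl, rfl, rfl⟩
      · exact ⟨(2 : Fin 8), rfl, rfl, rfl⟩
      · exact ⟨(4 : Fin 8), rfl, rfl, rfl, rfl, rfl⟩
      · exact ⟨(5 : Fin 8), rfl, rfl, rfl, rfl, rfl⟩
    exact hv v
  · have hv : ∀ v : Fin 6, ∃ i, ReflTransGen braidExample.AdjW v (braidExample.x i) := by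
      intro v
      fin_cases v
      · exact ⟨0, ReflTransGen.refl⟩
      · exact ⟨1, ReflTransGen.refl⟩
      · exact ⟨2, ReflTransGen.refl⟩
      · exact ⟨3, ReflTransGen.refl⟩
      · exact ⟨1, ReflTransGen.single a4⟩
      · exact ⟨3, ReflTransGen.single a5⟩
    exact hv
  · have hv : ∀ v : Fin 8, ∃ i, ReflTransGen braidExample.AdjB v (braidExample.y i) := by
      intro v
      fin_cases v
      · exact ⟨0, ReflTransGen.refl⟩
      · exact ⟨1, ReflTransGen.refl⟩
      · exact ⟨2, ReflTransGen.refl⟩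
      · exact ⟨3, ReflTransGen.refl⟩
      · exact ⟨0, ReflTransGen.single c4⟩
      · exact ⟨3, ReflTransGen.single c5⟩
      · exact ⟨1, ReflTransGen.single c6⟩
      · exact ⟨2, ReflTransGen.single c7⟩
    exact hv
  · have h04 : (4 : Fin 6) ≠ 0 := by decide
    have h24 : (4 : Fin 6) ≠ 2 := by decide
    have h05 : (5 : Fin 6) ≠ 0 := by decide
    have h25 : (5 : Fin 6) ≠ 2 := by decide
    have h03 : (3 : Fin 6) ≠ 0 := by decide
    have h23 : (3 : Fin 6) ≠ 2 := by decide
    exact ReflTransGen.head ⟨a14, h04, h24⟩ (ReflTransGen.head ⟨a45, h05, h25⟩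
      (ReflTransGen.single ⟨a5, h03, h23⟩))
  · show (0 : Fin 6) ≠ 2
    decide
  · show (1 : Fin 6) ≠ 0
    decide
  · show (1 : Fin 6) ≠ 2
    decide

/-- A nontrivial group is left-orderable if it carries a strict total order that is invariant
under left multiplication. -/
def LeftOrderable (G : Type*) [Group G] : Prop :=
  Nontrivial G ∧ ∃ lt : G → G → Prop, IsStrictTotalOrder G lt ∧
    ∀ a b c : G, lt a b ↔ lt (c * a) (c * b)

open Pool.Agent.TH335.LS Pool.Agent.Helper69K1.HT

section proof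

/-- telescoping along a path -/
theorem path_prod {H : Type*} [Group H] {D : Diagram} (F : D.B → H) :
    ∀ (l : List ((D.C × Bool) ⊕ Fin 4)) (a b : D.B), D.Path a l b →
      (l.map fun k => (F (D.pred k))⁻¹ * F (D.succ k)).prod = (F a)⁻¹ * F b
  | [], a, b, h => by
    have h' : a = b := h
    simp [h']
  | k :: l, a, b, h => by
    obtain ⟨h1, h2⟩ : D.pred k = a ∧ D.Path (D.succ k) l b := h
    rw [List.map_cons, List.prod_cons, path_prod F l _ b h2, h1]
    group

/-- The network of the white regions at a point. -/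
theorem net {X H : Type*} [Group H] [CompleteLinearOrder X] (ρ : Act H X) {D : Diagram}
    (hD : D.Good) (ev : D.W → H) (ee : D.B → H)
    (hrel : ∀ c, ((ee (D.b₂ c))⁻¹ * ee (D.b₁ c)) ^ D.q c =
      ((ev (D.w₁ c))⁻¹ * ev (D.w₂ c)) ^ D.p c) (r : X) :
    BNet ρ D.star D.opp (fun k => (ee (D.pred k))⁻¹ * ee (D.succ k))
      (fun n => ρ.f (ev n) r) D.x r := by
  have hk : ∀ k : D.C × Bool, ∃ a b : ℕ, 1 ≤ a ∧ 1 ≤ b ∧
      ((ee (D.pred (Sum.inl k)))⁻¹ * ee (D.succ (Sum.inl k))) ^ b =
        ((ev (D.at_ (Sum.inl k)))⁻¹ * ev (D.opp k)) ^ a := by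
    rintro ⟨c, s⟩
    refine ⟨D.p c, D.q c, D.p_pos c, D.q_pos c, ?_⟩
    cases s
    · exact hrel c
    · have h1 := congrArg (fun z => z⁻¹) (hrel c)
      simp only [← inv_pow, mul_inv_rev, inv_inv] at h1
      exact h1
  have hstep : ∀ a b, D.AdjW a b → ∃ k, Sum.inl k ∈ D.star a ∧ D.opp k = b := by
    rintro a b ⟨k, h1, h2⟩
    exact ⟨k, (hD.mem a _).mpr h1, h2⟩
  refine ⟨fun n k hkn h => ?_, fun n k hkn h => ?_, fun n k hkn h => ?_, fun n => ?_,
    fun n i hi => (hD.mem n _).mp hi, fun n => ?_, ?_, hD.ne02, hD.ne10, hD.ne12,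
    fun i => (hD.mem _ _).mpr rfl⟩
  · obtain ⟨a, b, ha, hb, hab⟩ := hk k
    have hat := (hD.mem n _).mp hkn
    refine ρ.dir_le hb hab ?_
    rw [ρ.inv_mul_le, hat]; exact h
  · obtain ⟨a, b, ha, hb, hab⟩ := hk k
    have hat := (hD.mem n _).mp hkn
    refine ρ.dir_ge hb hab ?_
    rw [ρ.le_inv_mul, hat]; exact h
  · obtain ⟨a, b, ha, hb, hab⟩ := hk k
    have hat := (hD.mem n _).mp hkn
    have h1 := le_antisymm (ρ.dir_le ha hab.symm h.le) (ρ.dir_ge ha hab.symm h.ge)
    rw [ρ.inv_mul_eq, hat] at h1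
    exact h1
  · obtain ⟨a, ha⟩ := hD.closed n
    rw [path_prod ee _ _ _ ha, inv_mul_cancel]
  · obtain ⟨i, hi⟩ := hD.connW n
    exact ⟨i, ReflTransGen.mono (fun a b h => hstep a b h) _ _ hi⟩
  · exact ReflTransGen.mono (fun a b h => ⟨hstep a b h.1, h.2⟩) _ _ hD.link

/-- Everything acts trivially. -/
theorem act_trivial {X H : Type*} [Group H] [CompleteLinearOrder X] (ρ : Act H X) {D : Diagram}
    (hD : D.Good) (ev : D.W → H) (ee : D.B → H) (s : Fin 3 → H)
    (hx : ev (D.x 0) = 1) (hy : ee (D.y 0) = 1)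
    (hrel : ∀ c, ((ee (D.b₂ c))⁻¹ * ee (D.b₁ c)) ^ D.q c =
      ((ev (D.w₁ c))⁻¹ * ev (D.w₂ c)) ^ D.p c)
    (h1 : (ee (D.y 3))⁻¹ * s 0 = (ev (D.x 0))⁻¹ * ev (D.x 3))
    (h2 : (ee (D.y 2))⁻¹ * s 2 = (ev (D.x 3))⁻¹ * ev (D.x 2))
    (h3 : (ev (D.x 3))⁻¹ * s 1 = (s 0)⁻¹ * s 2)
    (h4 : (s 0)⁻¹ * ee (D.y 0) = (ev (D.x 0))⁻¹ * s 1)
    (h5 : (s 2)⁻¹ * ee (D.y 1) = (s 1)⁻¹ * ev (D.x 2))
    (h6 : (s 1)⁻¹ * ev (D.x 1) = (ee (D.y 0))⁻¹ * ee (D.y 1)) (r : X) :
    (∀ n, ρ.f (ev n) r = r) ∧ (∀ n, ρ.f (ee n) r = r) ∧ ∀ i, ρ.f (s i) r = r := by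
  have := D.finW
  rw [hx, inv_one, one_mul] at h1 h4
  have e0 : s 0 = ee (D.y 3) * ev (D.x 3) := by rw [← h1]; group
  have e2 : s 2 = ee (D.y 2) * (ev (D.x 3))⁻¹ * ev (D.x 2) := by
    rw [mul_assoc, ← h2]; group
  have e1 : s 1 = (ee (D.y 3))⁻¹ * ee (D.y 2) * (ev (D.x 3))⁻¹ * ev (D.x 2) := by
    have : s 1 = ev (D.x 3) * ((s 0)⁻¹ * s 2) := by rw [← h3]; group
    rw [this, e0, e2]; group
  have f0 : ee (D.y 0) = s 0 * s 1 := by rw [← h4]; group
  have f1 : ee (D.y 1) = s 2 * (s 1)⁻¹ * ev (D.x 2) := by rw [mul_assoc, ← h5]; group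
  have f2 : ev (D.x 1) = s 1 * (ee (D.y 0))⁻¹ * ee (D.y 1) := by rw [mul_assoc, ← h6]; group
  have N := fun r => net ρ hD ev ee hrel r
  have N' := fun r => (net ρ hD ev ee hrel r).dual
  have v0 : ∀ r, ρ.f (ev (D.x 0)) r = r := fun r => by rw [hx, ρ.one]
  have p0 : D.pred (Sum.inr 0) = D.y 3 := rfl
  have p1 : D.pred (Sum.inr 1) = D.y 0 := rfl
  have p2 : D.pred (Sum.inr 2) = D.y 1 := rfl
  have p3 : D.pred (Sum.inr 3) = D.y 2 := rfl
  have S : HS ρ (ev (D.x 1)) (ev (D.x 2)) (ev (D.x 3)) (ee (D.y 0)) (ee (D.y 1)) (ee (D.y 2))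
      (ee (D.y 3)) := by
    refine ⟨?_, ?_, ?_, fun r g1 g2 g3 => ?_, fun r g1 g2 g3 => ?_, fun r g1 g2 g3 => ?_,
      fun r g1 g2 g3 => ?_, fun r g1 g2 g3 => ?_, fun r g1 g2 g3 => ?_, fun r g1 g2 g3 => ?_,
      fun r g1 g2 g3 => ?_, fun r g1 g2 g3 => ?_, fun r g1 g2 g3 => ?_⟩
    · rw [f1, e1, e2]; group
    · rw [f2, f0, f1, e0, e1, e2]; group
    · rw [f0, e0, e1]; group
    · obtain ⟨q1, q2⟩ := (N' r).pA (by show ρ.f (ev (D.x 1)) r ≤ ρ.f (ev (D.x 0)) r; rwa [v0])
        g3 ((ρ.le_inv_mul _ _ _).mpr g2)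
      have q3 : ∀ n, ρ.f (ev (D.x 3)) r ≤ ρ.f (ev n) r := q1
      have q4 := q3 (D.x 0)
      rw [v0] at q4
      exact ⟨q4, (ρ.inv_mul_le _ _ _).mp q2, q3 _⟩
    · obtain ⟨q1, q2⟩ := (N r).pA (by show ρ.f (ev (D.x 0)) r ≤ ρ.f (ev (D.x 1)) r; rwa [v0])
        g3 ((ρ.inv_mul_le _ _ _).mpr g2)
      have q3 : ∀ n, ρ.f (ev n) r ≤ ρ.f (ev (D.x 3)) r := q1
      have q4 := q3 (D.x 0)
      rw [v0] at q4
      exact ⟨q4, (ρ.le_inv_mul _ _ _).mp q2, q3 _⟩
    · obtain ⟨q1, q2, q3⟩ := (N' r).pB
        (by show ρ.f (ev (D.x 3)) r < ρ.f (ev (D.x 0)) r; rwa [v0]) g3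
        (lt_of_not_ge fun h => absurd g2 (not_lt.mpr ((ρ.inv_mul_le _ _ _).mp h)))
      have q4 : ρ.f (ev (D.x 1)) r < ρ.f (ev (D.x 0)) r := q1
      rw [v0] at q4
      exact ⟨q4, lt_of_not_ge fun h => absurd q3 (not_lt.mpr ((ρ.le_inv_mul _ _ _).mpr h)), q2⟩
    · obtain ⟨q1, q2, q3⟩ := (N r).pB
        (by show ρ.f (ev (D.x 0)) r < ρ.f (ev (D.x 3)) r; rwa [v0]) g3
        (lt_of_not_ge fun h => absurd g2 (not_lt.mpr ((ρ.le_inv_mul _ _ _).mp h)))
      have q4 : ρ.f (ev (D.x 0)) r < ρ.f (ev (D.x 1)) r := q1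
      rw [v0] at q4
      exact ⟨q4, lt_of_not_ge fun h => absurd q3 (not_lt.mpr ((ρ.inv_mul_le _ _ _).mpr h)), q2⟩
    · exact (ρ.inv_mul_le _ _ _).mp ((N' r).pC
        (by show ρ.f (ev (D.x 3)) r < ρ.f (ev (D.x 0)) r; rwa [v0]) g2 g3)
    · exact (ρ.le_inv_mul _ _ _).mp ((N r).pC
        (by show ρ.f (ev (D.x 0)) r < ρ.f (ev (D.x 3)) r; rwa [v0]) g2 g3)
    · refine (ρ.le_inv_mul _ _ _).mp ((N r).pD fun j => ?_)
      show ρ.f (ev (D.x j)) r ≤ ρ.f (ev (D.x 0)) r
      rw [v0]
      fin_cases j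
      · exact (v0 r).le
      · exact g1
      · exact g3
      · exact g2
    · refine (ρ.inv_mul_le _ _ _).mp ((N' r).pD fun j => ?_)
      show ρ.f (ev (D.x 0)) r ≤ ρ.f (ev (D.x j)) r
      rw [v0]
      fin_cases j
      · exact (v0 r).ge
      · exact g1
      · exact g3
      · exact g2
    · refine (ρ.inv_mul_le _ _ _).mp ((N' r).pE fun j => ?_)
      show ρ.f (ev (D.x 2)) r ≤ ρ.f (ev (D.x j)) r
      fin_cases j
      · exact g3.trans (v0 r).ge
      · exact g1
      · exact le_rfl
      · exact g2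
    · refine (ρ.le_inv_mul _ _ _).mp ((N r).pE fun j => ?_)
      show ρ.f (ev (D.x j)) r ≤ ρ.f (ev (D.x 2)) r
      fin_cases j
      · exact (v0 r).le.trans g3
      · exact g1
      · exact le_rfl
      · exact g2
  obtain ⟨t1, t2, t3⟩ := S.fx r
  obtain ⟨t4, t5⟩ := S.fx' r
  rw [hy, ρ.one] at t3
  have t6 : ρ.f (ee (D.y 3)) r = r := by
    have h := S.r1
    rw [h, ρ.mul, t2] at t3
    exact t3.symm
  rw [t6] at t5
  have vx : ∀ i, ρ.f (ev (D.x i)) r = r := by
    intro i
    fin_cases i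
    · exact v0 r
    · exact t1
    · exact t2
    · exact t4
  have vy : ∀ i, ρ.f (ee (D.y i)) r = r := by
    intro i
    fin_cases i
    · show ρ.f (ee (D.y 0)) r = r
      rw [hy, ρ.one]
    · exact t3.symm
    · exact t5.symm
    · exact t6
  have vw : ∀ n, ρ.f (ev n) r = r := by
    intro n
    refine le_antisymm ?_ ?_
    · have h := (N r).all_le (i := 0) (fun j => ?_) n
      · have h' : ρ.f (ev n) r ≤ ρ.f (ev (D.x 0)) r := h
        rwa [v0] at h'
      · show ρ.f (ev (D.x j)) r ≤ ρ.f (ev (D.x 0)) r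
        rw [vx, vx]
    · have h := (N' r).all_le (i := 0) (fun j => ?_) n
      · have h' : ρ.f (ev (D.x 0)) r ≤ ρ.f (ev n) r := h
        rwa [v0] at h'
      · show ρ.f (ev (D.x 0)) r ≤ ρ.f (ev (D.x j)) r
        rw [vx, vx]
  have vb : ∀ c, ρ.f (ee (D.b₁ c)) r = ρ.f (ee (D.b₂ c)) r := by
    intro c
    rw [← ρ.inv_mul_eq]
    refine le_antisymm ?_ ?_
    · refine ρ.dir_le (D.q_pos c) (hrel c) ?_
      rw [ρ.inv_mul_le, vw, vw]
    · refine ρ.dir_ge (D.q_pos c) (hrel c) ?_
      rw [ρ.le_inv_mul, vw, vw]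
  have vbn : ∀ n, ρ.f (ee n) r = r := by
    intro n
    obtain ⟨i, hi⟩ := hD.connB n
    induction hi using ReflTransGen.head_induction_on with
    | refl => exact vy i
    | @head a b hab _ ih =>
      obtain ⟨c, ⟨rfl, rfl⟩ | ⟨rfl, rfl⟩⟩ := hab
      · rw [vb]; exact ih
      · rw [← vb]; exact ih
  have inv_fix : ∀ g, ρ.f g r = r → ρ.f g⁻¹ r = r := by
    intro g hg
    have := ρ.inv_self g r
    rwa [hg] at this
  refine ⟨vw, vbn, fun i => ?_⟩
  fin_cases i
  · show ρ.f (s 0) r = r
    rw [e0, ρ.mul, vw, vbn]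
  · show ρ.f (s 1) r = r
    rw [e1, ρ.mul, ρ.mul, ρ.mul, vw, inv_fix _ (vw _), vbn, inv_fix _ (vbn _)]
  · show ρ.f (s 2) r = r
    rw [e2, ρ.mul, ρ.mul, vw, inv_fix _ (vw _), vbn]

end proof

open Pool.Agent.W705.Borr in
/-- A left-ordered group acts on its lower sets. -/
noncomputable def actLower {H : Type*} [Group H] [LinearOrder H]
    (hinv : ∀ a b c : H, a ≤ b ↔ c * a ≤ c * b) : Act H (LowerSet H) where
  f := act hinv
  one := act_one hinv
  mul := act_mul hinv

open Pool.Agent.W705.Borr in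
theorem hom_trivial {D : Diagram} (hD : D.Good) (H : Type*) [Group H]
    (hH : LeftOrderable H) (f : D.Grp →* H) (g : D.Grp) : f g = 1 := by
  classical
  obtain ⟨_, lt, hlt, hinv⟩ := hH
  let _ : LinearOrder H := linearOrderOfSTO lt
  have hinv' : ∀ a b c : H, a ≤ b ↔ c * a ≤ c * b := by
    intro a b c
    show (a = b ∨ lt a b) ↔ (c * a = c * b ∨ lt (c * a) (c * b))
    rw [mul_right_inj, ← hinv]
  set F : FreeGroup D.Gen →* H := f.comp (PresentedGroup.mk D.relators) with hF
  have rel : ∀ w ∈ D.relators, F w = 1 := by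
    intro w hw
    show f (PresentedGroup.mk D.relators w) = 1
    rw [show PresentedGroup.mk D.relators w = 1 from
      (PresentedGroup.one_of_mem hw), map_one]
  have sig : ∀ a b c d, D.sigma a b c d ∈ D.relators →
      (F a)⁻¹ * F c = (F b)⁻¹ * F d := by
    intro a b c d h
    have h1 := rel _ h
    rw [Diagram.sigma, map_mul, map_inv, mul_inv_eq_one] at h1
    simpa only [map_mul, map_inv] using h1
  have h0 := act_trivial (actLower hinv') hD (fun v => F (D.w v)) (fun v => F (D.b v))
    (fun i => F (D.s i)) (rel _ (Or.inl rfl)) (rel _ (Or.inr (Or.inl rfl))) ?_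
    (sig _ _ _ _ (Or.inr (Or.inr (Or.inr (Or.inl rfl)))))
    (sig _ _ _ _ (Or.inr (Or.inr (Or.inr (Or.inr (Or.inl rfl))))))
    (sig _ _ _ _ (Or.inr (Or.inr (Or.inr (Or.inr (Or.inr (Or.inl rfl)))))))
    (sig _ _ _ _ (Or.inr (Or.inr (Or.inr (Or.inr (Or.inr (Or.inr (Or.inl rfl))))))))
    (sig _ _ _ _ (Or.inr (Or.inr (Or.inr (Or.inr (Or.inr (Or.inr (Or.inr (Or.inl rfl)))))))))
    (sig _ _ _ _ (Or.inr (Or.inr (Or.inr (Or.inr (Or.inr (Or.inr (Or.inr (Or.inr rfl)))))))))
  · have hf : f = 1 := by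
      apply PresentedGroup.ext
      rintro (v | v | i)
      · exact eq_one_of_act hinv' _ fun r => (h0 r).1 v
      · exact eq_one_of_act hinv' _ fun r => (h0 r).2.1 v
      · exact eq_one_of_act hinv' _ fun r => (h0 r).2.2 i
    rw [hf]; rfl
  · intro c
    have h1 := rel _ (Or.inr (Or.inr (Or.inl ⟨c, Or.inr rfl⟩)))
    rw [map_mul, map_inv, map_pow, map_pow, mul_inv_eq_one] at h1
    simpa only [Diagram.u, Diagram.v, map_mul, map_inv] using h1

/-- **A half twist on four strands of an alternating link.** For every alternating diagram `D` with a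
box (with positive rational tangles in place of the crossings) the fundamental group of the
double branched cover of the link that is obtained by putting the half twist on four strands into
the box has no nontrivial homomorphism to a left-orderable group; it is not left-orderable. -/
theorem result (D : Diagram) (hD : D.Good) :
    (∀ (H : Type*) [Group H], LeftOrderable H → ∀ (f : D.Grp →* H) (g : D.Grp), f g = 1) ∧
      ¬ LeftOrderable D.Grp := by
  refine ⟨fun H _ hH f g => hom_trivial hD H hH f g, fun h => ?_⟩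
  obtain ⟨x, y, hxy⟩ := h.1
  exact hxy ((hom_trivial hD _ h (MonoidHom.id _) x).trans
    (hom_trivial hD _ h (MonoidHom.id _) y).symm)

end Pool.Agent.Results.MP_3d425c_gt.AlternatingHalfTwist
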