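import Pool.Agent.Helper50.AD.Final

set_option autoImplicit false

/-!
# Alternating links in a solid torus and their double branched covers in lens spaces

## The manifolds

Let `A` be an annulus, `V = A × [0, 1]` a solid torus, and `L ⊂ V` a link with an alternating diagram
in `A`. Each crossing may be replaced by a rational tangle of the same sign. We suppose that no
component of the diagram lies in a disc in `A`. Let `c` be the number of points in which the diagram
meets an arc in `A` that connects the two boundary curves. The curve `λ` is the boundary curve of the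
meridian disc of `V` over this arc, and `m` is the curve on the boundary of `V` that goes once around
`V`, parallel to the core of `A`. Fill the outside of `V` by a second solid torus in which
`m ^ P * λ ^ Q` bounds a disc (`P`, `Q` coprime). This gives a lens space with first homology of order
`P`; the 3-sphere for `P = 1`. Let `M(P, Q)` be the double cover of this lens space branched along `L`
whose covering involution is nontrivial over `m` (it exists if `P + c Q` is even). If `P = 2 P'`,
`Q = 2 Q'` with coprime `P', Q'` and odd `P' + c Q'` then `M(P, Q)` is the double cover of the lens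
space with the parameters `P', Q'`, branched along the union of `L` and the core of the second solid
torus. For `P' = 1`, `Q' = 0` this is the link `L` in the 3-sphere together with a circle `B` around
the `c` strands that cross the arc. All `M(P, Q)` are fillings of the double cover of the complement
of `B`, branched along `L`.

## The theorem

If `P ≥ 1` and `(c - 2) |Q| ≤ P` then every homomorphism from the fundamental group of `M(P, Q)` to a
left-orderable group is trivial. The case `c = 1`, `P = Q = 1` is the theorem of Boyer, Gordon and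
Watson on the double branched covers of alternating links in the 3-sphere (the arc crosses one edge of
the diagram), `c = 3` is the theorem on circles around three strands of an alternating link. For
`c = 3`, `P = 1`, `Q = ± 1` the link is changed by a full twist of three strands. The bound cannot be
improved for `c` parallel strands without crossings: then `M(P, Q)` is a Seifert manifold.

## The diagrams

By an isotopy of `A` every such diagram can be cut into slices in each of which there are `n` strands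
(numbered from the outer to the inner boundary curve of `A`) and one rational tangle `p / q` between
the strands `i` and `i + 1`. Here `p / q = 1 / 1` is a crossing, `0 / 1` is no crossing, and `1 / 0` is
the tangle in which both strands turn back. (Let `n` be the maximal number of strands; where there are
fewer strands we make zigzags. The planar diagrams with `n` ends on each side are products of
tangles `1 / 0` by the theorem on the generators of the Temperley-Lieb category.) The arc is between
the last and the first slice, but it can be moved through the openings of the tangles `1 / 0` that can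
be seen from there (`openings`), so that `c = n - 2 e` for `e` openings. The diagram is alternating:
the sign of the tangle is `(-1) ^ i`. (The other sign gives the mirror images.)

## The group

The fundamental group of `M(P, Q)` is the kernel of the homomorphism to `±1` that sends all
generators to `-1`, of the orbifold group with the following presentation. There is a generator
`x ℓ k` of order two for each strand `k < n` at each level `ℓ ≤ N` (before the slice `ℓ`), and the
generator `m`; we put `x (N + 1) k = m⁻¹ (x 0 k) m`. The slice `ℓ` has the relations `x' k = x k` for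
`k ≠ i, i + 1`, `x' i * x' (i + 1) = x i * x (i + 1)` and
`(x' i * x i) ^ q = (x i * x (i + 1)) ^ (± p)`, where `x = x ℓ`, `x' = x (ℓ + 1)` and the sign is
`(-1) ^ i`. For `p = q = 1` these are the Wirtinger relations of a crossing, for `p / q = 1 / 0` they
say `x i = x (i + 1)` and `x' i = x' (i + 1)`. The last relation is `m ^ P * λ ^ Q = 1` with
`λ = x 0 0 * x 0 1 * ⋯ * x 0 (n - 1)`.

## The proof

A homomorphism from the kernel to a left-ordered group allows us to compare elements of the orbifold
group of the same degree. Fix an element `s` with `m² s < s`. The strands of the diagram in the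
universal cover of `A` get the values `x s`. Call the strand high if `x s ≥ m⁻¹ s` and low if
`x s ≤ m s`. A strand is low if and only if its translate by one period is high. At a crossing the
value of the overpass is between those of the two ends of the underpass, hence, because the diagram
is alternating and no component is compact, a high strand can be followed to infinity along
high strands (`Pool.Agent.Helper50.AD.trap`). The high strands and the low strands cannot cross, and
the strip has bounded width, so the high strands cannot be disjoint from their translate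
(`Pool.Agent.Helper50.AD.no_translate`). Therefore no strand is high: `m s < x s < m⁻¹ s` for all
strands `x` and all `s`. Since `x y s ≤ s` for some `s` and the last two strands `x, y` that meet the
arc, the element `λ` moves some point less than `m⁻¹ ^ (c - 2)` does, and this contradicts the
filling relation.
-/

universe u

namespace Pool.Agent.Results.MP_3d425c_gt.AnnularAlternatingLinks

open Pool.Agent.Helper50.AD

/-- A nontrivial group is left-orderable if it carries a strict total order that is invariant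
under left multiplication. -/
def LeftOrderable (G : Type*) [Group G] : Prop :=
  Nontrivial G ∧ ∃ lt : G → G → Prop, IsStrictTotalOrder G lt ∧
    ∀ a b c : G, lt a b ↔ lt (c * a) (c * b)

/-- A slice of an alternating diagram with `n` strands: the rational tangle `p / q` between the
strands `i` and `i + 1` (`1 / 1` is a crossing, `0 / 1` is no crossing, `1 / 0` is the tangle in which
the strands turn back). -/
structure Slice (n : ℕ) where
  i : ℕ
  lt : i + 1 < n
  p : ℕ
  q : ℕ
  coprime : p.Coprime q

/-- The generators: the strands `k < n` at the levels `ℓ ≤ N`, and `m`. -/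
abbrev Gen (n N : ℕ) : Type := Option (Fin (N + 1) × Fin n)

section presentation

variable {n N : ℕ}

/-- The generator `m`. -/
def m : FreeGroup (Gen n N) := FreeGroup.of none

/-- The strand `k` at the level `ℓ ≤ N + 1`. -/
def x (ℓ k : ℕ) : FreeGroup (Gen n N) :=
  if hk : k < n then
    if hℓ : ℓ < N + 1 then FreeGroup.of (some (⟨ℓ, hℓ⟩, ⟨k, hk⟩))
    else m⁻¹ * FreeGroup.of (some (0, ⟨k, hk⟩)) * m
  else 1

/-- The product of all strands at the level `0`. -/
def lam : FreeGroup (Gen n N) := ((List.range n).map (x 0)).prod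

/-- The relators of the orbifold group. -/
def relators (w : Fin (N + 1) → Slice n) (P : ℕ) (Q : ℤ) : Set (FreeGroup (Gen n N)) :=
  {r | (∃ ℓ k, ℓ ≤ N ∧ k < n ∧ r = x ℓ k ^ 2) ∨
    (∃ (ℓ : Fin (N + 1)) (k : ℕ), k < n ∧ k ≠ (w ℓ).i ∧ k ≠ (w ℓ).i + 1 ∧
      r = x (ℓ + 1) k * (x ℓ k)⁻¹) ∨
    (∃ ℓ : Fin (N + 1), r = x (ℓ + 1) (w ℓ).i * x (ℓ + 1) ((w ℓ).i + 1) *
      (x ℓ (w ℓ).i * x ℓ ((w ℓ).i + 1))⁻¹) ∨
    (∃ ℓ : Fin (N + 1), r = (x (ℓ + 1) (w ℓ).i * x ℓ (w ℓ).i) ^ (w ℓ).q *
      ((x ℓ (w ℓ).i * x ℓ ((w ℓ).i + 1)) ^ ((-1) ^ (w ℓ).i * ((w ℓ).p : ℤ)))⁻¹) ∨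
    r = m ^ P * lam ^ Q}

/-- The orbifold group. -/
abbrev Orb (w : Fin (N + 1) → Slice n) (P : ℕ) (Q : ℤ) : Type := PresentedGroup (relators w P Q)

/-- The homomorphism of the free group to `±1` that sends all generators to `-1`. -/
def sgn : FreeGroup (Gen n N) →* ℤˣ := FreeGroup.lift fun _ => -1

theorem sgn_m : sgn (m : FreeGroup (Gen n N)) = -1 := by simp [sgn, m]

theorem sgn_x {k : ℕ} (ℓ : ℕ) (hk : k < n) : sgn (x ℓ k : FreeGroup (Gen n N)) = -1 := by
  unfold x
  rw [dif_pos hk]
  split_ifs
  · simp [sgn]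
  · simp [sgn, m]

theorem sgn_lam : sgn (lam : FreeGroup (Gen n N)) = (-1) ^ n := by
  have h : ∀ l : List ℕ, (∀ k ∈ l, k < n) →
      sgn ((l.map (x 0)).prod : FreeGroup (Gen n N)) = (-1) ^ l.length := by
    intro l
    induction l with
    | nil => intro _; simp
    | cons a l ih =>
      intro hl
      rw [List.map_cons, List.prod_cons, map_mul, sgn_x 0 (hl a List.mem_cons_self),
        ih fun k hk => hl k (List.mem_cons_of_mem a hk), List.length_cons, pow_succ']
  have := h (List.range n) fun k hk => List.mem_range.mp hk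
  rwa [List.length_range] at this

theorem sgn_rel (w : Fin (N + 1) → Slice n) {P : ℕ} {Q : ℤ} (h : Even ((P : ℤ) + n * Q)) :
    ∀ r ∈ relators w P Q, sgn r = 1 := by
  rintro r (⟨ℓ, k, -, hk, rfl⟩ | ⟨ℓ, k, hk, -, -, rfl⟩ | ⟨ℓ, rfl⟩ | ⟨ℓ, rfl⟩ | rfl)
  · rw [map_pow, sgn_x ℓ hk]; simp
  · rw [map_mul, map_inv, sgn_x _ hk, sgn_x _ hk]; simp
  · have h1 := (w ℓ).lt
    have h2 : (w ℓ).i < n := by omega
    rw [map_mul, map_mul, map_inv, map_mul, sgn_x _ h1, sgn_x _ h2, sgn_x _ h1, sgn_x _ h2]; simp
  · have h1 := (w ℓ).lt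
    have h2 : (w ℓ).i < n := by omega
    rw [map_mul, map_pow, map_mul, map_inv, map_zpow, map_mul, sgn_x _ h1, sgn_x _ h2, sgn_x _ h2]
    simp
  · rw [map_mul, map_pow, map_zpow, sgn_m, sgn_lam]
    have h1 : ((-1 : ℤˣ) ^ P * ((-1) ^ n) ^ Q) = (-1) ^ ((P : ℤ) + n * Q) := by
      rw [zpow_add, zpow_natCast, zpow_mul, zpow_natCast]
    rw [h1, h.neg_one_zpow]

/-- The homomorphism of the orbifold group to `±1` that sends all generators to `-1`. -/
def deg (w : Fin (N + 1) → Slice n) (P : ℕ) (Q : ℤ) (h : Even ((P : ℤ) + n * Q)) :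
    Orb w P Q →* ℤˣ :=
  PresentedGroup.toGroup (f := fun _ => -1) (sgn_rel w h)

/-- The fundamental group of `M(P, Q)`. -/
abbrev CoverGroup (w : Fin (N + 1) → Slice n) (P : ℕ) (Q : ℤ) (h : Even ((P : ℤ) + n * Q)) :
    Type :=
  (deg w P Q h).ker

end presentation

section diagram

variable {n N : ℕ}

/-- The slices `1 / 0` whose strands are not met by later slices: a radial arc at the end of the
diagram can be moved through the openings of these tangles. -/
def openings (w : Fin (N + 1) → Slice n) : Finset (Fin (N + 1)) :=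
  Finset.univ.filter fun ℓ => (w ℓ).q = 0 ∧
    ∀ ℓ', ℓ < ℓ' → (w ℓ).i + 2 ≤ (w ℓ').i ∨ (w ℓ').i + 2 ≤ (w ℓ).i

/-- The diagram in the universal cover of the annulus is the periodic diagram with the slice
`τ mod (N + 1)` at the time `τ`. -/
def lev (N : ℕ) (τ : ℤ) : ℕ := (τ % ((N + 1 : ℕ) : ℤ)).toNat

theorem lev_lt (τ : ℤ) : lev N τ < N + 1 := by
  unfold lev
  have h1 := Int.emod_nonneg τ (b := ((N + 1 : ℕ) : ℤ)) (by positivity)
  have h2 := Int.emod_lt_of_pos τ (b := ((N + 1 : ℕ) : ℤ)) (by positivity)
  omega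

/-- The slice at the time `τ`. -/
def slice (w : Fin (N + 1) → Slice n) (τ : ℤ) : Slice n := w ⟨lev N τ, lev_lt τ⟩

/-- Strands (time, position) of the diagram in the universal cover that are connected in a slice: a
strand continues unless it turns back in a tangle `1 / 0`, and the two strands on each side of a
tangle `p / q`, `p ≠ 0`, are connected in the tangle. -/
inductive Touch (w : Fin (N + 1) → Slice n) : ℤ × ℕ → ℤ × ℕ → Prop
  | pass (τ : ℤ) (k : ℕ) (hk : k < n)
      (h : (slice w τ).q = 0 → k ≠ (slice w τ).i ∧ k ≠ (slice w τ).i + 1) :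
      Touch w (τ, k) (τ + 1, k)
  | before (τ : ℤ) (h : (slice w τ).p ≠ 0) : Touch w (τ, (slice w τ).i) (τ, (slice w τ).i + 1)
  | after (τ : ℤ) (h : (slice w τ).p ≠ 0) :
      Touch w (τ + 1, (slice w τ).i) (τ + 1, (slice w τ).i + 1)

/-- No component of the diagram lies in a disc: all components of its preimage in the universal
cover of the annulus are infinite. -/
def Essential (w : Fin (N + 1) → Slice n) : Prop :=
  ∀ (τ : ℤ) (k : ℕ), k < n → {z | Relation.EqvGen (Touch w) (τ, k) z}.Infinite

/-- For example, this holds for closed braids. -/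
theorem essential_of_braid (w : Fin (N + 1) → Slice n) (hw : ∀ ℓ, (w ℓ).q ≠ 0) : Essential w := by
  intro τ k hk
  have h : ∀ j : ℕ, Relation.EqvGen (Touch w) (τ, k) (τ + j, k) := by
    intro j
    induction j with
    | zero => simpa using Relation.EqvGen.refl (r := Touch w) (τ, k)
    | succ j ih =>
      refine ih.trans _ _ _ (.rel _ _ ?_)
      have := Touch.pass (w := w) (τ + j) k hk fun h => absurd h (hw _)
      rwa [add_assoc] at this
  refine Set.infinite_of_injective_forall_mem (f := fun j : ℕ => ((τ + j, k) : ℤ × ℕ)) ?_ h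
  intro a b hab
  simpa using hab

end diagram

section proof

variable {n N : ℕ} (w : Fin (N + 1) → Slice n) (P : ℕ) (Q : ℤ)

theorem lev_eq (τ : ℤ) : ((N + 1 : ℕ) : ℤ) * (τ / ((N + 1 : ℕ) : ℤ)) + lev N τ = τ := by
  unfold lev
  have h1 := Int.emod_nonneg τ (b := ((N + 1 : ℕ) : ℤ)) (by positivity)
  rw [Int.toNat_of_nonneg h1]
  exact Int.mul_ediv_add_emod τ _

theorem lev_of {τ j : ℤ} {ℓ : ℕ} (hℓ : ℓ < N + 1) (h : ((N + 1 : ℕ) : ℤ) * j + ℓ = τ) :
    lev N τ = ℓ ∧ τ / ((N + 1 : ℕ) : ℤ) = j := by
  have h1 := lev_eq (N := N) τ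
  have h2 := lev_lt (N := N) τ
  have h3 : τ / ((N + 1 : ℕ) : ℤ) = j := by
    rw [← h, add_comm, Int.add_mul_ediv_left _ _ (by positivity),
      Int.ediv_eq_zero_of_lt (by positivity) (by exact_mod_cast hℓ), zero_add]
  rw [h3] at h1
  exact ⟨by omega, h3⟩

/-- the strand in the orbifold group, at any time -/
def X (τ : ℤ) (k : ℕ) : Orb w P Q :=
  (PresentedGroup.of none : Orb w P Q) ^ (-(τ / ((N + 1 : ℕ) : ℤ))) *
    PresentedGroup.mk _ (x (lev N τ) k) *
    (PresentedGroup.of none : Orb w P Q) ^ (τ / ((N + 1 : ℕ) : ℤ))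

theorem mk_m : PresentedGroup.mk (relators w P Q) m = (PresentedGroup.of none : Orb w P Q) := rfl

theorem X_succ (τ : ℤ) {k : ℕ} (hk : k < n) :
    X w P Q (τ + 1) k = (PresentedGroup.of none : Orb w P Q) ^ (-(τ / ((N + 1 : ℕ) : ℤ))) *
      PresentedGroup.mk _ (x (lev N τ + 1) k) *
      (PresentedGroup.of none : Orb w P Q) ^ (τ / ((N + 1 : ℕ) : ℤ)) := by
  have h1 := lev_eq (N := N) τ
  have h2 := lev_lt (N := N) τ
  set j := τ / ((N + 1 : ℕ) : ℤ) with hj
  by_cases h3 : lev N τ + 1 < N + 1
  · obtain ⟨h4, h5⟩ := lev_of (N := N) (τ := τ + 1) (j := j) h3 (by push_cast at h1 ⊢; linarith)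
    unfold X
    rw [h4, h5]
  · have h6 : lev N τ = N := by omega
    obtain ⟨h4, h5⟩ := lev_of (N := N) (τ := τ + 1) (j := j + 1) (ℓ := 0) (by omega)
      (by rw [h6] at h1; push_cast at h1 ⊢; linarith)
    unfold X
    rw [h4, h5]
    have e : (x (lev N τ + 1) k : FreeGroup (Gen n N)) = m⁻¹ * x 0 k * m := by
      unfold x
      rw [dif_pos hk, dif_neg h3, dif_pos hk, dif_pos (Nat.succ_pos N)]
      rfl
    rw [e, map_mul, map_mul, map_inv, mk_m]
    group

theorem shift_lev (τ : ℤ) : lev N (τ + ((N + 1 : ℕ) : ℤ)) = lev N τ ∧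
    (τ + ((N + 1 : ℕ) : ℤ)) / ((N + 1 : ℕ) : ℤ) = τ / ((N + 1 : ℕ) : ℤ) + 1 := by
  have h1 := lev_eq (N := N) τ
  exact lev_of (lev_lt τ) (by push_cast at h1 ⊢; linarith)

theorem one_of_mem {r : FreeGroup (Gen n N)} (h : r ∈ relators w P Q) :
    PresentedGroup.mk (relators w P Q) r = 1 := PresentedGroup.one_of_mem h

/-- conjugation by a power of `m` -/
theorem conj_mul (g a b : Orb w P Q) (j : ℤ) :
    (g ^ (-j) * a * g ^ j) * (g ^ (-j) * b * g ^ j) = g ^ (-j) * (a * b) * g ^ j := by
  group

theorem conj_npow (g a : Orb w P Q) (j : ℤ) (q : ℕ) :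
    (g ^ (-j) * a * g ^ j) ^ q = g ^ (-j) * a ^ q * g ^ j := by
  have := _root_.conj_pow (i := q) (a := g ^ (-j)) (b := a)
  rwa [← zpow_neg, neg_neg] at this

theorem deg_mk (h : Even ((P : ℤ) + n * Q)) (r : FreeGroup (Gen n N)) :
    deg w P Q h (PresentedGroup.mk _ r) = sgn r := rfl

theorem ess_of (hw : Essential w) (Z : Finset (ℤ × ℕ)) (hZ : ∀ z ∈ Z, z.2 < n)
    (hc : ∀ a b, Pool.Agent.Helper50.AD.Touch n (fun τ => (slice w τ).i) (fun τ => (slice w τ).q = 0)
      (fun τ => (slice w τ).p ≠ 0) a b → (a ∈ Z ↔ b ∈ Z)) : Z = ∅ := by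
  by_contra hne
  obtain ⟨⟨τ, k⟩, hz⟩ := Finset.nonempty_iff_ne_empty.mpr hne
  refine hw τ k (hZ _ hz) (Z.finite_toSet.subset fun z hz' => ?_)
  have key : ∀ a b, Relation.EqvGen (Touch w) a b → (a ∈ Z ↔ b ∈ Z) := by
    intro a b hab
    induction hab with
    | rel a b h =>
      cases h with
      | pass τ k hk h => exact hc _ _ (.pass hk h)
      | before τ h => exact hc _ _ (Pool.Agent.Helper50.AD.Touch.before (i := fun τ => (slice w τ).i) h)
      | after τ h => exact hc _ _ (Pool.Agent.Helper50.AD.Touch.after (i := fun τ => (slice w τ).i) h)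
    | refl a => rfl
    | symm a b _ ih => exact ih.symm
    | trans a b c _ _ ih1 ih2 => exact ih1.trans ih2
  exact (key _ _ hz').mp hz

theorem strands (hw : Essential w) (hP : Even ((P : ℤ) + n * Q)) :
    Strands (deg w P Q hP) (PresentedGroup.of none : Orb w P Q) n ((N + 1 : ℕ) : ℤ)
      (fun τ => (slice w τ).i) (fun τ => (slice w τ).p) (fun τ => (slice w τ).q)
      Nat.bodd (X w P Q) where
  hN := by positivity
  hi τ := (slice w τ).lt
  hδ k := Nat.bodd_succ k
  per τ := by
    unfold slice
    simp only [(shift_lev τ).1]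
  perq τ := by
    unfold slice
    simp only [(shift_lev τ).1]
  pq τ h := by
    have h1 := (slice w τ).coprime
    have h : (slice w τ).q = 0 := h
    rw [h, Nat.coprime_zero_right] at h1
    exact h1.ge
  ess := ess_of w hw
  dm := sgn_m
  dx τ k hk := by
    unfold X
    rw [map_mul, map_mul, map_zpow, map_zpow, deg_mk, sgn_x _ hk, mul_right_comm, ← zpow_add]
    simp
  sq τ k hk := by
    unfold X
    rw [conj_mul, ← map_mul]
    have h1 := one_of_mem w P Q (r := x (lev N τ) k ^ 2)
      (Or.inl ⟨lev N τ, k, Nat.lt_succ_iff.mp (lev_lt τ), hk, rfl⟩)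
    rw [pow_two] at h1
    rw [h1, mul_one, ← zpow_add, neg_add_cancel, zpow_zero]
  stay τ k hk h1 h2 := by
    rw [X_succ w P Q τ hk]
    unfold X
    have h3 := one_of_mem w P Q (r := x (lev N τ + 1) k * (x (lev N τ) k)⁻¹)
      (Or.inr (Or.inl ⟨⟨lev N τ, lev_lt τ⟩, k, hk, h1, h2, rfl⟩))
    rw [map_mul, map_inv, mul_inv_eq_one] at h3
    rw [h3]
  prod τ := by
    have hi : (slice w τ).i + 1 < n := (slice w τ).lt
    have h1 : (slice w τ).i < n := by omega
    rw [X_succ w P Q τ hi, X_succ w P Q τ h1]
    unfold X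
    rw [conj_mul, conj_mul]
    have h3 := one_of_mem w P Q (r := x (lev N τ + 1) (slice w τ).i *
      x (lev N τ + 1) ((slice w τ).i + 1) *
      (x (lev N τ) (slice w τ).i * x (lev N τ) ((slice w τ).i + 1))⁻¹)
      (Or.inr (Or.inr (Or.inl ⟨⟨lev N τ, lev_lt τ⟩, rfl⟩)))
    rw [map_mul, map_inv, mul_inv_eq_one, map_mul, map_mul] at h3
    rw [h3]
  pow τ := by
    have hi : (slice w τ).i + 1 < n := (slice w τ).lt
    have h1 : (slice w τ).i < n := by omega
    rw [X_succ w P Q τ h1]
    have h3 := one_of_mem w P Q (r := (x (lev N τ + 1) (slice w τ).i * x (lev N τ) (slice w τ).i) ^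
        (slice w τ).q * ((x (lev N τ) (slice w τ).i * x (lev N τ) ((slice w τ).i + 1)) ^
        ((-1) ^ (slice w τ).i * ((slice w τ).p : ℤ)))⁻¹)
      (Or.inr (Or.inr (Or.inr (Or.inl ⟨⟨lev N τ, lev_lt τ⟩, rfl⟩))))
    rw [map_mul, map_inv, mul_inv_eq_one, map_pow, map_zpow, map_mul, map_mul] at h3
    have sq : ∀ k, k < n → (PresentedGroup.mk (relators w P Q) (x (lev N τ) k))⁻¹ =
        PresentedGroup.mk (relators w P Q) (x (lev N τ) k) := by
      intro k hk
      have h1 := one_of_mem w P Q (r := x (lev N τ) k ^ 2)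
        (Or.inl ⟨lev N τ, k, Nat.lt_succ_iff.mp (lev_lt τ), hk, rfl⟩)
      rw [pow_two, map_mul] at h1
      exact inv_eq_of_mul_eq_one_right h1
    unfold X
    rw [conj_mul, conj_mul, conj_mul, conj_npow, conj_npow, conj_npow, h3]
    rcases Bool.eq_false_or_eq_true (Nat.bodd (slice w τ).i) with hb | hb
    · rw [hb, if_pos rfl]
      have h4 : Odd (slice w τ).i := Nat.odd_iff.mpr (by rw [Nat.mod_two_of_bodd, hb]; rfl)
      have h5 : ∀ (a b : Orb w P Q) (p : ℕ), a⁻¹ = a → b⁻¹ = b →
          (a * b) ^ (-(p : ℤ)) = (b * a) ^ p := by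
        intro a b p ha hb'
        rw [zpow_neg, zpow_natCast, ← inv_pow, mul_inv_rev, ha, hb']
      rw [h4.neg_one_pow, neg_one_mul, h5 _ _ _ (sq _ h1) (sq _ hi)]
    · rw [hb, if_neg (by decide)]
      have h4 : Even (slice w τ).i := Nat.even_iff.mpr (by rw [Nat.mod_two_of_bodd, hb]; rfl)
      rw [h4.neg_one_pow, one_mul, zpow_natCast]
  shift τ k hk := by
    unfold X
    obtain ⟨h1, h2⟩ := shift_lev (N := N) τ
    rw [h1, h2]
    group

theorem gen : Subgroup.closure (insert (PresentedGroup.of none : Orb w P Q)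
    {g | ∃ τ k, k < n ∧ g = X w P Q τ k}) = ⊤ := by
  rw [eq_top_iff, ← PresentedGroup.closure_range_of (relators w P Q), Subgroup.closure_le]
  rintro _ ⟨a, rfl⟩
  rcases a with _ | ⟨ℓ, k⟩
  · exact Subgroup.subset_closure (Set.mem_insert _ _)
  · refine Subgroup.subset_closure (Set.mem_insert_of_mem _ ⟨(ℓ : ℕ), k, k.2, ?_⟩)
    obtain ⟨h1, h2⟩ := lev_of (N := N) (τ := ((ℓ : ℕ) : ℤ)) (j := 0) ℓ.2 (by ring)
    unfold X
    rw [h1, h2]
    have e : (x (ℓ : ℕ) (k : ℕ) : FreeGroup (Gen n N)) = FreeGroup.of (some (ℓ, k)) := by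
      unfold x
      rw [dif_pos k.2, dif_pos ℓ.2]
    rw [e]
    simp only [neg_zero, zpow_zero, one_mul, mul_one]
    rfl

/-- The strands at the two sides of an opening. -/
theorem opening_one (ℓ : Fin (N + 1)) (hℓ : ℓ ∈ openings w) :
    X w P Q 0 (w ℓ).i * X w P Q 0 ((w ℓ).i + 1) = 1 := by
  rw [openings, Finset.mem_filter] at hℓ
  obtain ⟨-, hq, hlater⟩ := hℓ
  have hi := (w ℓ).lt
  have hi' : (w ℓ).i < n := by omega
  -- the strands at the end
  have key : ∀ j : ℕ, (ℓ : ℕ) < j → j ≤ N + 1 →
      PresentedGroup.mk (relators w P Q) (x j (w ℓ).i * x j ((w ℓ).i + 1)) = 1 := by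
    intro j hj
    induction j, hj using Nat.le_induction with
    | base =>
      intro _
      have h1 := one_of_mem w P Q (Or.inr (Or.inr (Or.inl ⟨ℓ, rfl⟩)))
      have h2 := one_of_mem w P Q (Or.inr (Or.inr (Or.inr (Or.inl ⟨ℓ, rfl⟩))))
      have h3 : (w ℓ).p = 1 := by
        have := (w ℓ).coprime
        rwa [hq, Nat.coprime_zero_right] at this
      rw [hq, pow_zero, one_mul, h3, map_inv, inv_eq_one, map_zpow] at h2
      rw [map_mul, map_inv, mul_inv_eq_one] at h1
      have h4 : (-1 : ℤ) ^ (w ℓ).i * ((1 : ℕ) : ℤ) = 1 ∨ (-1 : ℤ) ^ (w ℓ).i * ((1 : ℕ) : ℤ) = -1 := by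
        rcases neg_one_pow_eq_or ℤ (w ℓ).i with h | h <;> rw [h] <;> simp
      have h5 : PresentedGroup.mk (relators w P Q) (x ℓ (w ℓ).i * x ℓ ((w ℓ).i + 1)) = 1 := by
        rcases h4 with h4 | h4
        · rwa [h4, zpow_one] at h2
        · rwa [h4, zpow_neg, zpow_one, inv_eq_one] at h2
      exact h1.trans h5
    | succ j hj ih =>
      intro hjN
      have h1 := ih (by omega)
      have h2 := hlater ⟨j, by omega⟩ (by rw [Fin.lt_def]; exact hj)
      have e : ∀ k, k < n → k ≠ (w ⟨j, by omega⟩).i → k ≠ (w ⟨j, by omega⟩).i + 1 →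
          PresentedGroup.mk (relators w P Q) (x (j + 1) k) =
            PresentedGroup.mk (relators w P Q) (x j k) := by
        intro k hk hk1 hk2
        have h3 := one_of_mem w P Q (Or.inr (Or.inl ⟨⟨j, by omega⟩, k, hk, hk1, hk2, rfl⟩))
        rwa [map_mul, map_inv, mul_inv_eq_one] at h3
      rw [map_mul, e _ hi' (by omega) (by omega), e _ hi (by omega) (by omega), ← map_mul]
      exact h1
  have h1 := key (N + 1) (by omega) le_rfl
  have h0 : ∀ k, k < n → (x (N + 1) k : FreeGroup (Gen n N)) = m⁻¹ * x 0 k * m := by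
    intro k hk
    unfold x
    rw [dif_pos hk, dif_neg (by omega), dif_pos hk, dif_pos (Nat.succ_pos N)]
    rfl
  have h2 : ∀ k, X w P Q 0 k = PresentedGroup.mk _ (x 0 k) := by
    intro k
    obtain ⟨h3, h4⟩ := lev_of (N := N) (τ := 0) (j := 0) (ℓ := 0) (Nat.succ_pos N) (by simp)
    unfold X
    rw [h3, h4]
    simp
  rw [h2, h2, ← map_mul]
  rw [h0 _ hi', h0 _ hi] at h1
  have e : (m⁻¹ * x 0 (w ℓ).i * m * (m⁻¹ * x 0 ((w ℓ).i + 1) * m) : FreeGroup (Gen n N)) =
      m⁻¹ * (x 0 (w ℓ).i * x 0 ((w ℓ).i + 1)) * m := by group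
  rw [e, map_mul, map_mul, map_inv] at h1
  have := mul_eq_one_iff_eq_inv.mp h1
  rw [inv_mul_eq_iff_eq_mul, mul_inv_cancel] at this
  exact this

theorem cover_trivial {H : Type u} [Group H] (hH : LeftOrderable H) (hw : Essential w)
    (hP1 : 1 ≤ P) (hP : Even ((P : ℤ) + n * Q))
    (hPQ : ((n : ℤ) - 2 * (openings w).card - 2) * |Q| ≤ P)
    (f : CoverGroup w P Q hP →* H) (g : CoverGroup w P Q hP) : f g = 1 := by
  classical
  obtain ⟨_, lt, hlt, hinv⟩ := hH
  let _ : LinearOrder H := linearOrderOfSTO lt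
  have hinv' : ∀ a b c : H, a ≤ b ↔ c * a ≤ c * b := by
    intro a b c
    show (a = b ∨ lt a b) ↔ (c * a = c * b ∨ lt (c * a) (c * b))
    rw [mul_right_inj, ← hinv]
  -- the arc through the openings
  have hgap : ∀ ℓ ∈ openings w, ∀ ℓ' ∈ openings w, ℓ ≠ ℓ' →
      (w ℓ).i + 2 ≤ (w ℓ').i ∨ (w ℓ').i + 2 ≤ (w ℓ).i := by
    intro ℓ h ℓ' h' hne
    rw [openings, Finset.mem_filter] at h h'
    rcases lt_or_gt_of_ne hne with hlt | hlt
    · exact h.2.2 ℓ' hlt
    · exact (h'.2.2 ℓ hlt).symm
  obtain ⟨l, h1, h2, h3⟩ := Pool.Agent.Helper50.AD.cancel (X w P Q 0) ((openings w).image fun ℓ => (w ℓ).i)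
    (by
      intro s hs s' hs' hlt
      simp only [Finset.mem_image] at hs hs'
      obtain ⟨ℓ, h, rfl⟩ := hs
      obtain ⟨ℓ', h', rfl⟩ := hs'
      have hne : ℓ ≠ ℓ' := by rintro rfl; exact hlt.false
      have := hgap ℓ h ℓ' h' hne
      omega)
    (by
      intro s hs
      simp only [Finset.mem_image] at hs
      obtain ⟨ℓ, h, rfl⟩ := hs
      exact opening_one w P Q ℓ h) n
  have hcard : (((openings w).image fun ℓ => (w ℓ).i).filter fun s => s + 2 ≤ n).card =
      (openings w).card := by
    rw [Finset.filter_true_of_mem, Finset.card_image_of_injOn]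
    · intro ℓ h ℓ' h' he
      by_contra hne
      have := hgap ℓ h ℓ' h' hne
      have he : (w ℓ).i = (w ℓ').i := he
      omega
    · intro s hs
      simp only [Finset.mem_image] at hs
      obtain ⟨ℓ, -, rfl⟩ := hs
      exact (w ℓ).lt
  rw [hcard] at h1
  have hPQ' : ((l.length : ℤ) - 2) * |Q| ≤ P := by
    have : (l.length : ℤ) = n - 2 * (openings w).card := by omega
    rw [this]
    exact hPQ
  refine (strands w P Q hw hP).hom_trivial (Q := Q) f hinv' (gen w P Q) l h2 h3 hP1 hPQ' ?_ g
  have h4 := one_of_mem w P Q (r := m ^ P * lam ^ Q) (Or.inr (Or.inr (Or.inr (Or.inr rfl))))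
  rw [map_mul, map_pow, map_zpow, mk_m] at h4
  have h5 : PresentedGroup.mk (relators w P Q) lam = ((List.range n).map (X w P Q 0)).prod := by
    unfold lam
    rw [map_list_prod, List.map_map]
    congr 1
    refine List.map_congr_left fun k _ => ?_
    obtain ⟨h6, h7⟩ := lev_of (N := N) (τ := 0) (j := 0) (ℓ := 0) (Nat.succ_pos N) (by simp)
    unfold X
    rw [h6, h7]
    simp
  rw [h5] at h4
  exact h4

end proof

/-- Every homomorphism from the fundamental group of `M(P, Q)` to a left-orderable group is trivial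
if `P ≥ 1` and `(c - 2) |Q| ≤ P`, `c = n - 2 e`, where `e` is the number of openings; in particular it
is not left-orderable. -/
theorem result {n N : ℕ} (w : Fin (N + 1) → Slice n) (hw : Essential w) (P : ℕ) (Q : ℤ)
    (hP : 1 ≤ P) (hpar : Even ((P : ℤ) + n * Q))
    (hPQ : ((n : ℤ) - 2 * (openings w).card - 2) * |Q| ≤ P) :
    (∀ (H : Type u) [Group H], LeftOrderable H →
      ∀ (f : CoverGroup w P Q hpar →* H) (g : CoverGroup w P Q hpar), f g = 1) ∧
    ¬ LeftOrderable (CoverGroup w P Q hpar) := by
  refine ⟨fun H _ hH f g => cover_trivial w P Q hH hw hP hpar hPQ f g, fun h => ?_⟩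
  obtain ⟨a, b, hab⟩ := h.1
  exact hab ((cover_trivial w P Q h hw hP hpar hPQ (MonoidHom.id _) a).trans
    (cover_trivial w P Q h hw hP hpar hPQ (MonoidHom.id _) b).symm)

end Pool.Agent.Results.MP_3d425c_gt.AnnularAlternatingLinks
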