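import Pool.Agent.Helper35.LS.Pce

set_option autoImplicit false

/-!
# Alternating tangles at the crossings of the torus knot T(3,5)

## The links

Take the standard diagram of the torus knot `T(3,5)`: the closure of the 3-braid
`(σ₁ σ₂)⁵`, drawn in an annulus, with ten crossings, all of the same sign. Its regions are `U` (above
strand 1), the five regions `M i` between strands 1 and 2, the five regions `N i` between strands 2
and 3, and `D` (below strand 3), `i` modulo 5. Around a crossing there are four regions `west`,
`north`, `east`, `south`, in clockwise order. For the crossing `(false, i)` (the `i`-th `σ₁`) they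
are `M i`, `U`, `M (i+1)`, `N i`, for the crossing `(true, i)` (the `i`-th `σ₂`) they are `N i`,
`M (i+1)`, `N (i+1)`, `D`.

Now replace each of the ten crossings `p` by a piece `t p`:

* an arbitrary alternating tangle diagram (`Pool.Agent.Y479.LS.Tangle`), whose crossings have the
  sign of the replaced crossing (with respect to the colouring of the tangle in which `west` and
  `east` are white), and which has a crossing at which the regions `west` and `east` meet (for
  instance the old crossing itself, a vertical column of crossings, or an arbitrary alternating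
  tangle above or below such a crossing); or
* the smoothing that joins the regions `west` and `east` (the oriented smoothing of the braid).

Smoothing some of the crossings gives the diagrams of `T(3,n)`, `n ≤ 4`, and of all
other subwords of `(σ₁ σ₂)⁵`. The double cover branched along `T(3,5)`, `T(3,4)`, `T(3,3)` is the
spherical manifold of type `E₈`, `E₆`, `D₄`. The diagrams with ten tangles are not alternating, and
a tangle in place of the crossing `(false, i)` has the sign opposite to a tangle in place of
`(true, i)`, with respect to the checkerboard colouring of the whole diagram.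

## The group

`Grp t` is the fundamental group of the double cover of `S³` branched along the link: the generators
are the regions, with one white region (`D`) and one black region (`U`) set equal to `1`, and there
is one relation for each crossing: if `w₁, b₁, w₂, b₂` are the corners in counterclockwise order,
where the overpass separates `w₁, b₁` from `w₂, b₂`, then `b₂⁻¹ b₁ = w₁⁻¹ w₂` (Dehn presentation,
even subgroup of the orbifold group; the opposite convention for overpasses gives the mirror image
of the link). The regions `T.west`, `T.north`, `T.east`, `T.south` of a tangle are identified with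
the surrounding regions. A smoothing identifies `west` and `east`. The relation that
`west⁻¹ east` and `north⁻¹ south` commute holds automatically: these elements come from the
fundamental group of the torus that covers the sphere around the tangle, and since the tangle is
planar the relation follows from those of the crossings.

## The theorem

If not all the `σ₁` and not all the `σ₂` are smoothed, then every homomorphism from
this group to a left-orderable group is trivial. The condition is necessary (`smoothed`): if all
the `σ₁` are smoothed then the link has a split component, and the group maps onto `ℤ`.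

## The proof

Let the group act on a complete linear order. An alternating tangle as above has the following
property (maximum principle): `J = north⁻¹ south` commutes with `V = west⁻¹ east`, and moves every
point in the direction of `V`, at least as far as `V`. Put `x = (M i)⁻¹ M (i+1)`,
`v = (N i)⁻¹ N (i+1)` and `w = (x v)⁻¹`. The pairs `(x, v)` form a closed chain of length five, with
inequalities in place of the equations of the Sieradski group. The stages of the chain are compared
by the positions of the fixed points (the hexagon of signs of `x, v, w`, with cuts at the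
smoothings), and the chain cannot close up unless `x = v = 1` (`Pool.Agent.Helper35.LS.Chn`).
-/

universe u

namespace Pool.Agent.Results.MP_3d425c_gt.TorusKnotTangles

open Pool.Agent.Y479.LS (Tangle Adj)

/-- A nontrivial group is left-orderable if it carries a strict total order that is invariant
under left multiplication. -/
def LeftOrderable (G : Type*) [Group G] : Prop :=
  Nontrivial G ∧ ∃ lt : G → G → Prop, IsStrictTotalOrder G lt ∧
    ∀ a b c : G, lt a b ↔ lt (c * a) (c * b)

/-- What replaces a crossing: an alternating tangle, or the smoothing that joins the regions `west`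
and `east`. -/
inductive Piece : Type 1
  | tangle (T : Tangle) : Piece
  | smoothing : Piece

namespace Piece

/-- The regions of the tangle. -/
def Reg : Piece → Type
  | tangle T => T.W ⊕ T.B
  | smoothing => Empty

/-- The regions `west` and `east` meet at a crossing of the tangle. -/
def Good : Piece → Prop
  | tangle T => Adj T.w₁ T.w₂ T.west T.east
  | smoothing => True

/-- The relators of a piece. `ι v` is the element of the region `v` of the tangle; `w`, `n`, `e`, `s`
are the elements of the surrounding regions. -/
def rel {F : Type} [Group F] : (q : Piece) → (q.Reg → F) → F → F → F → F → Set F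
  | tangle T, ι, w, n, e, s =>
    {r | ∃ c, r = ((ι (.inr (T.b₂ c)))⁻¹ * ι (.inr (T.b₁ c))) *
      ((ι (.inl (T.w₁ c)))⁻¹ * ι (.inl (T.w₂ c)))⁻¹} ∪
    {ι (.inl T.west) * w⁻¹, ι (.inr T.north) * n⁻¹, ι (.inl T.east) * e⁻¹, ι (.inr T.south) * s⁻¹,
      (w⁻¹ * e) * (n⁻¹ * s) * ((n⁻¹ * s) * (w⁻¹ * e))⁻¹}
  | smoothing, _, w, _, e, _ => {w * e⁻¹}

end Piece

section diagram

variable (t : Bool × ZMod 5 → Piece)

/-- The generators: the regions `M i = (false, i)` and `N i = (true, i)`, and the regions of the
tangles. -/
abbrev Gen : Type := (Bool × ZMod 5) ⊕ (Σ p : Bool × ZMod 5, (t p).Reg)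

/-- The region between strands 1 and 2 to the left of the crossing `(false, i)`. -/
def M (i : ZMod 5) : FreeGroup (Gen t) := FreeGroup.of (Sum.inl (false, i))

/-- The region between strands 2 and 3 to the left of the crossing `(true, i)`. -/
def N (i : ZMod 5) : FreeGroup (Gen t) := FreeGroup.of (Sum.inl (true, i))

/-- The region above strand 1. -/
def U : FreeGroup (Gen t) := 1

/-- The region below strand 3. -/
def D : FreeGroup (Gen t) := 1

/-- The regions around the ten crossings. -/
def west : Bool × ZMod 5 → FreeGroup (Gen t)
  | (false, i) => M t i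
  | (true, i) => N t i

@[inherit_doc west]
def north : Bool × ZMod 5 → FreeGroup (Gen t)
  | (false, _) => U t
  | (true, i) => M t (i + 1)

@[inherit_doc west]
def east : Bool × ZMod 5 → FreeGroup (Gen t)
  | (false, i) => M t (i + 1)
  | (true, i) => N t (i + 1)

@[inherit_doc west]
def south : Bool × ZMod 5 → FreeGroup (Gen t)
  | (false, i) => N t i
  | (true, _) => D t

/-- The relators: those of the pieces at the ten crossings. -/
def relators : Set (FreeGroup (Gen t)) :=
  {r | ∃ p : Bool × ZMod 5, r ∈ (t p).rel (fun v => FreeGroup.of (Sum.inr ⟨p, v⟩))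
    (west t p) (north t p) (east t p) (south t p)}

/-- The fundamental group of the double branched cover. -/
abbrev Grp : Type := PresentedGroup (relators t)

end diagram

section proofs

open Pool.Agent.Helper35.LS Pool.Agent.W705.Borr

theorem piece_spec {F : Type} [Group F] {H : Type u} [Group H] [LinearOrder H]
    (hinv : ∀ a b c : H, a ≤ b ↔ c * a ≤ c * b) (φ : F →* H) (q : Piece) (hq : q.Good)
    (ι : q.Reg → F) (w n e s : F) (h : ∀ r ∈ q.rel ι w n e s, φ r = 1) :
    (q = .smoothing → (φ w)⁻¹ * φ e = 1) ∧
    (q ≠ .smoothing → Ok hinv ((φ w)⁻¹ * φ e) ((φ n)⁻¹ * φ s)) ∧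
    (φ w = 1 → φ e = 1 → φ n = 1 → ∀ v, φ (ι v) = 1) := by
  cases q with
  | smoothing =>
    refine ⟨fun _ => ?_, fun h1 => absurd rfl h1, fun _ _ _ v => v.elim⟩
    have h1 := h (w * e⁻¹) rfl
    rw [map_mul, map_inv, mul_inv_eq_one] at h1
    rw [h1, inv_mul_cancel]
  | tangle T =>
    have hrep : T.Rep (fun v => φ (ι (.inl v))) (fun v => φ (ι (.inr v))) := by
      intro c
      have h1 := h _ (Or.inl ⟨c, rfl⟩)
      rw [map_mul, map_inv, mul_inv_eq_one] at h1
      simpa only [map_mul, map_inv] using h1
    have hw : φ (ι (.inl T.west)) = φ w := by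
      have h1 := h _ (Or.inr (Or.inl rfl))
      rwa [map_mul, map_inv, mul_inv_eq_one] at h1
    have hn : φ (ι (.inr T.north)) = φ n := by
      have h1 := h _ (Or.inr (Or.inr (Or.inl rfl)))
      rwa [map_mul, map_inv, mul_inv_eq_one] at h1
    have he : φ (ι (.inl T.east)) = φ e := by
      have h1 := h _ (Or.inr (Or.inr (Or.inr (Or.inl rfl))))
      rwa [map_mul, map_inv, mul_inv_eq_one] at h1
    have hs : φ (ι (.inr T.south)) = φ s := by
      have h1 := h _ (Or.inr (Or.inr (Or.inr (Or.inr (Or.inl rfl)))))
      rwa [map_mul, map_inv, mul_inv_eq_one] at h1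
    have hc : ((φ w)⁻¹ * φ e) * ((φ n)⁻¹ * φ s) = ((φ n)⁻¹ * φ s) * ((φ w)⁻¹ * φ e) := by
      have h1 := h _ (Or.inr (Or.inr (Or.inr (Or.inr (Or.inr rfl)))))
      rw [map_mul, map_inv, mul_inv_eq_one] at h1
      simpa only [map_mul, map_inv] using h1
    refine ⟨fun h1 => (Piece.noConfusion h1), fun _ => ?_, fun h1 h2 h3 v => ?_⟩
    · rw [← hw, ← he, ← hn, ← hs] at hc ⊢
      exact ok_of_rep hinv hrep hq hc
    · obtain ⟨k1, k2⟩ := triv_of_rep hinv hrep (hw.trans h1) (he.trans h2) (hn.trans h3)
      rcases v with v | v
      · exact k1 v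
      · exact k2 v

theorem const_of_succ {A : Type*} {f : ZMod 5 → A} (h : ∀ i, f (i + 1) = f i) (i j : ZMod 5) :
    f i = f j := by
  have key : ∀ k : ℕ, f (j + k) = f j := by
    intro k
    induction k with
    | zero => simp
    | succ k ih => rw [Nat.cast_succ, ← add_assoc, h, ih]
  have := key (i - j).val
  rwa [ZMod.natCast_zmod_val, add_sub_cancel] at this

theorem mk_eq_one {t : Bool × ZMod 5 → Piece} {r : FreeGroup (Gen t)} (h : r ∈ relators t) :
    (PresentedGroup.mk (relators t) r : Grp t) = 1 := PresentedGroup.one_of_mem h

end proofs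

open Pool.Agent.Helper35.LS Pool.Agent.W705.Borr in
/-- **Tangles at the crossings of T(3,5).** Replace each of the ten crossings of the closure of
the 3-braid `(σ₁ σ₂)⁵` by an alternating tangle of the same sign in which the regions `west` and
`east` meet at a crossing, or by the smoothing that joins `west` and `east`, such that not all `σ₁`
and not all `σ₂` are smoothed. Then every homomorphism from the fundamental group of the double
branched cover of the link to a left-orderable group is trivial. -/
theorem result (t : Bool × ZMod 5 → Piece) (ht : ∀ p, (t p).Good)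
    (h₁ : ∃ i, t (false, i) ≠ .smoothing) (h₂ : ∃ i, t (true, i) ≠ .smoothing)
    (H : Type u) [Group H] (hH : LeftOrderable H) (φ : Grp t →* H) (γ : Grp t) : φ γ = 1 := by
  classical
  obtain ⟨_, lt, hlt, hinv⟩ := hH
  let _ : LinearOrder H := linearOrderOfSTO lt
  have hinv' : ∀ a b c : H, a ≤ b ↔ c * a ≤ c * b := by
    intro a b c
    show (a = b ∨ lt a b) ↔ (c * a = c * b ∨ lt (c * a) (c * b))
    rw [mul_right_inj, ← hinv]
  set Φ : FreeGroup (Gen t) →* H := φ.comp (PresentedGroup.mk (relators t)) with hΦ
  have hr : ∀ r ∈ relators t, Φ r = 1 := by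
    intro r h
    rw [hΦ, MonoidHom.comp_apply, mk_eq_one h, map_one]
  have spec := fun p : Bool × ZMod 5 => piece_spec hinv' Φ (t p) (ht p)
    (fun v => FreeGroup.of (Sum.inr ⟨p, v⟩)) (west t p) (north t p) (east t p) (south t p)
    (fun r h => hr r ⟨p, h⟩)
  have hb : ∀ i, t (false, i) ≠ .smoothing →
      Ok hinv' ((Φ (M t i))⁻¹ * Φ (M t (i + 1))) (Φ (N t i)) := by
    intro i hi
    have h := (spec (false, i)).2.1 hi
    have e : (Φ (north t (false, i)))⁻¹ * Φ (south t (false, i)) = Φ (N t i) := by
      show (Φ 1)⁻¹ * Φ (N t i) = _
      rw [map_one, inv_one, one_mul]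
    rw [e] at h
    exact h
  have hc : ∀ i, t (true, i) ≠ .smoothing →
      Ok hinv' ((Φ (N t i))⁻¹ * Φ (N t (i + 1))) (Φ (M t (i + 1)))⁻¹ := by
    intro i hi
    have h := (spec (true, i)).2.1 hi
    have e : (Φ (north t (true, i)))⁻¹ * Φ (south t (true, i)) = (Φ (M t (i + 1)))⁻¹ := by
      show (Φ (M t (i + 1)))⁻¹ * Φ 1 = _
      rw [map_one, mul_one]
    rw [e] at h
    exact h
  obtain ⟨i₁, h₁⟩ := h₁
  obtain ⟨i₂, h₂⟩ := h₂
  have key := chain_trivial (hinv := hinv') (m := fun i => Φ (M t i)) (n := fun i => Φ (N t i))
    (fun i => by
      by_cases hi : t (false, i) = .smoothing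
      · exact Or.inl ((spec (false, i)).1 hi)
      · exact Or.inr (hb i hi))
    (fun i => by
      by_cases hi : t (true, i) = .smoothing
      · exact Or.inl ((spec (true, i)).1 hi)
      · exact Or.inr (hc i hi))
    ⟨i₁, hb i₁ h₁⟩ ⟨i₂, hc i₂ h₂⟩
  have hM : ∀ i, Φ (M t (i + 1)) = Φ (M t i) := fun i => (inv_mul_eq_one.mp (key i).1).symm
  have hN : ∀ i, Φ (N t (i + 1)) = Φ (N t i) := fun i => (inv_mul_eq_one.mp (key i).2).symm
  have hN1 : ∀ i, Φ (N t i) = 1 := by
    intro i
    rw [const_of_succ (f := fun i => Φ (N t i)) hN i i₁]
    have h := hb i₁ h₁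
    rw [hM, inv_mul_cancel] at h
    exact h.one
  have hM1 : ∀ i, Φ (M t i) = 1 := by
    intro i
    rw [const_of_succ (f := fun i => Φ (M t i)) hM i (i₂ + 1)]
    have h := hc i₂ h₂
    rw [hN, inv_mul_cancel] at h
    exact inv_eq_one.mp h.one
  have hreg : ∀ (p : Bool × ZMod 5) (v : (t p).Reg), Φ (FreeGroup.of (Sum.inr ⟨p, v⟩)) = 1 := by
    rintro ⟨k, i⟩ v
    cases k with
    | false => exact (spec (false, i)).2.2 (hM1 i) (hM1 (i + 1)) (map_one Φ) v
    | true => exact (spec (true, i)).2.2 (hN1 i) (hN1 (i + 1)) (hM1 (i + 1)) v
  have hφ : φ = 1 := by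
    apply PresentedGroup.ext
    rintro (⟨k, i⟩ | ⟨p, v⟩)
    · cases k with
      | false => exact hM1 i
      | true => exact hN1 i
    · exact hreg p v
  rw [hφ, MonoidHom.one_apply]

/-- In particular the fundamental group is not left-orderable. -/
theorem not_leftOrderable (t : Bool × ZMod 5 → Piece) (ht : ∀ p, (t p).Good)
    (h₁ : ∃ i, t (false, i) ≠ .smoothing) (h₂ : ∃ i, t (true, i) ≠ .smoothing) :
    ¬ LeftOrderable (Grp t) := by
  intro h
  obtain ⟨x, y, hxy⟩ := h.1
  have h3 := result t ht h₁ h₂ (Grp t) h (MonoidHom.id _) x
  have h4 := result t ht h₁ h₂ (Grp t) h (MonoidHom.id _) y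
  simp only [MonoidHom.id_apply] at h3 h4
  exact hxy (by rw [h3, h4])

/-- The crossing, as a tangle. -/
def crossing : Tangle where
  W := Bool
  B := Bool
  C := Unit
  finW := inferInstance
  finB := inferInstance
  w₁ := fun _ => false
  b₁ := fun _ => true
  w₂ := fun _ => true
  b₂ := fun _ => false
  west := false
  north := false
  east := true
  south := true
  starW := fun v => [((), v)]
  starB := fun v => [((), !v)]
  white := by
    refine ⟨by decide, fun _ => by decide, ?_, ?_, ?_, ⟨rfl, rfl⟩, ⟨rfl, rfl⟩, ?_, ?_⟩
    · rintro v ⟨⟨⟩, x⟩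
      cases v <;> cases x <;> simp [Pool.Agent.Y479.LS.cAt]
    · intro v
      exact List.nodup_singleton _
    · intro v h1 h2
      cases v
      · exact absurd rfl h1
      · exact absurd rfl h2
    · intro v h1
      cases v
      · exact absurd rfl h1
      · exact Relation.ReflTransGen.refl
    · intro v h1
      cases v
      · exact Relation.ReflTransGen.refl
      · exact absurd rfl h1
  black := by
    refine ⟨by decide, fun _ => by decide, ?_, ?_, ?_, ⟨rfl, rfl⟩, ⟨rfl, rfl⟩, ?_, ?_⟩
    · rintro v ⟨⟨⟩, x⟩
      cases v <;> cases x <;> simp [Pool.Agent.Y479.LS.cAt]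
    · intro v
      exact List.nodup_singleton _
    · intro v h1 h2
      cases v
      · exact absurd rfl h1
      · exact absurd rfl h2
    · intro v h1
      cases v
      · exact absurd rfl h1
      · exact Relation.ReflTransGen.refl
    · intro v h1
      cases v
      · exact Relation.ReflTransGen.refl
      · exact absurd rfl h1

theorem crossing_good : (Piece.tangle crossing).Good := ⟨((), false), rfl, rfl⟩

/-- White regions to `g`, black regions to `1`. -/
def Piece.col {H : Type*} [Group H] (g : H) : (q : Piece) → q.Reg → H
  | .tangle _, .inl _ => g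
  | .tangle _, .inr _ => 1
  | .smoothing, v => v.elim

theorem col_rel {F : Type} [Group F] {H : Type*} [CommGroup H] (φ : F →* H) (g : H) (q : Piece)
    (ι : q.Reg → F) (hι : ∀ v, φ (ι v) = q.col g v) (w n e s : F) (hwe : φ w = φ e)
    (h : q ≠ .smoothing → φ w = g ∧ φ n = 1 ∧ φ s = 1) : ∀ r ∈ q.rel ι w n e s, φ r = 1 := by
  cases q with
  | smoothing =>
    rintro r rfl
    rw [map_mul, map_inv, hwe, mul_inv_cancel]
  | tangle T =>
    obtain ⟨h1, h2, h3⟩ := h (fun h => Piece.noConfusion h)
    have hw : ∀ v, φ (ι (.inl v)) = g := fun v => hι (.inl v)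
    have hb : ∀ v, φ (ι (.inr v)) = 1 := fun v => hι (.inr v)
    have h4 : φ e = g := hwe.symm.trans h1
    rintro r (⟨c, rfl⟩ | rfl | rfl | rfl | rfl | rfl)
    all_goals simp only [map_mul, map_inv, hw, hb, h1, h2, h3, h4, inv_one, mul_one,
      inv_mul_cancel, mul_inv_cancel]

/-- The condition of `result` is necessary: if all the `σ₁` or all the `σ₂` are smoothed then
the group maps onto the integers. -/
theorem smoothed (t : Bool × ZMod 5 → Piece)
    (h : (∀ i, t (false, i) = .smoothing) ∨ (∀ i, t (true, i) = .smoothing)) :
    ∃ φ : Grp t →* Multiplicative ℤ, Function.Surjective φ := by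
  obtain ⟨k, hk⟩ : ∃ k : Bool, ∀ i, t (k, i) = .smoothing := by
    rcases h with h | h
    · exact ⟨false, h⟩
    · exact ⟨true, h⟩
  set g : Multiplicative ℤ := Multiplicative.ofAdd 1 with hg
  set f : Gen t → Multiplicative ℤ := fun x => match x with
    | .inl (l, _) => if l = k then 1 else g
    | .inr ⟨p, v⟩ => (t p).col g v with hf
  have hlift : ∀ x, FreeGroup.lift f (FreeGroup.of x) = f x := fun x => FreeGroup.lift_apply_of
  have h1 : ∀ r ∈ relators t, FreeGroup.lift f r = 1 := by
    rintro r ⟨⟨l, i⟩, hr⟩
    refine col_rel (FreeGroup.lift f) g (t (l, i)) _ (fun v => hlift _) _ _ _ _ ?_ ?_ r hr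
    · cases l
      · exact (hlift (.inl (false, i))).trans (hlift (.inl (false, i + 1))).symm
      · exact (hlift (.inl (true, i))).trans (hlift (.inl (true, i + 1))).symm
    · intro h2
      have hl : l ≠ k := by
        rintro rfl
        exact h2 (hk i)
      cases l
      · have hk1 : k = true := by
          cases k
          · exact absurd rfl hl
          · rfl
        subst hk1
        refine ⟨(hlift _).trans (by simp [hf]), map_one _, (hlift _).trans (by simp [hf])⟩
      · have hk1 : k = false := by
          cases k
          · rfl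
          · exact absurd rfl hl
        subst hk1
        refine ⟨(hlift _).trans (by simp [hf]), (hlift _).trans (by simp [hf]), map_one _⟩
  refine ⟨PresentedGroup.toGroup h1, fun z => ?_⟩
  refine ⟨(PresentedGroup.of (Sum.inl (!k, 0)) : Grp t) ^ (Multiplicative.toAdd z), ?_⟩
  rw [map_zpow, PresentedGroup.toGroup.of]
  have h2 : f (Sum.inl (!k, 0)) = g := by
    cases k <;> simp [hf]
  rw [h2, hg, ← ofAdd_zsmul]
  simp

end Pool.Agent.Results.MP_3d425c_gt.TorusKnotTangles
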